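import Pool.Agent.Q161.DK.Rel

set_option autoImplicit false

namespace Pool.Agent.Q161.DK

open Complex Set

def P0 : S4 := ⟨![0, 1, 2, 3], ![0, 1, 2, 3], by decide, by decide⟩
def P1 : S4 := ⟨![0, 1, 3, 2], ![0, 1, 3, 2], by decide, by decide⟩
def P2 : S4 := ⟨![0, 2, 1, 3], ![0, 2, 1, 3], by decide, by decide⟩
def P3 : S4 := ⟨![0, 2, 3, 1], ![0, 3, 1, 2], by decide, by decide⟩
def P4 : S4 := ⟨![0, 3, 1, 2], ![0, 2, 3, 1], by decide, by decide⟩
def P5 : S4 := ⟨![0, 3, 2, 1], ![0, 3, 2, 1], by decide, by decide⟩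
def P8 : S4 := ⟨![1, 2, 0, 3], ![2, 0, 1, 3], by decide, by decide⟩
def P9 : S4 := ⟨![1, 2, 3, 0], ![3, 0, 1, 2], by decide, by decide⟩
def P10 : S4 := ⟨![1, 3, 0, 2], ![2, 0, 3, 1], by decide, by decide⟩
def P11 : S4 := ⟨![1, 3, 2, 0], ![3, 0, 2, 1], by decide, by decide⟩
def P14 : S4 := ⟨![2, 1, 0, 3], ![2, 1, 0, 3], by decide, by decide⟩
def P15 : S4 := ⟨![2, 1, 3, 0], ![3, 1, 0, 2], by decide, by decide⟩
def P16 : S4 := ⟨![2, 3, 0, 1], ![2, 3, 0, 1], by decide, by decide⟩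
def P17 : S4 := ⟨![2, 3, 1, 0], ![3, 2, 0, 1], by decide, by decide⟩
def P20 : S4 := ⟨![3, 1, 0, 2], ![2, 1, 3, 0], by decide, by decide⟩
def P21 : S4 := ⟨![3, 1, 2, 0], ![3, 1, 2, 0], by decide, by decide⟩
def P22 : S4 := ⟨![3, 2, 0, 1], ![2, 3, 1, 0], by decide, by decide⟩
def P23 : S4 := ⟨![3, 2, 1, 0], ![3, 2, 1, 0], by decide, by decide⟩
def E0 : S4 := ⟨![0, 1, 2, 3], ![0, 1, 2, 3], by decide, by decide⟩
def E1 : S4 := ⟨![0, 2, 1, 3], ![0, 2, 1, 3], by decide, by decide⟩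
def E2 : S4 := ⟨![0, 3, 1, 2], ![0, 2, 3, 1], by decide, by decide⟩

theorem comb (N : S4 → ℤ)
    (hN : ∀ e π : S4, N π + N (π * Equiv.swap (e 0) (e 1) * Equiv.swap (e 2) (e 3)) =
      N (π * Equiv.swap (e 0) (e 1)) + N (π * Equiv.swap (e 2) (e 3)))
    (h0 : ∀ π, Equiv.Perm.sign π = 1 → ∃ m, N π = 2 * m)
    (h1 : ∀ π, Equiv.Perm.sign π = -1 → ∃ m, N π = 2 * m + 1) : False := by
  have r0 := hN E0 P8
  rw [show P8 * Equiv.swap (E0 0) (E0 1) * Equiv.swap (E0 2) (E0 3) = P15 from by decide,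
    show P8 * Equiv.swap (E0 0) (E0 1) = P14 from by decide,
    show P8 * Equiv.swap (E0 2) (E0 3) = P9 from by decide] at r0
  have r1 := hN E0 P10
  rw [show P10 * Equiv.swap (E0 0) (E0 1) * Equiv.swap (E0 2) (E0 3) = P21 from by decide,
    show P10 * Equiv.swap (E0 0) (E0 1) = P20 from by decide,
    show P10 * Equiv.swap (E0 2) (E0 3) = P11 from by decide] at r1
  have r2 := hN E0 P16
  rw [show P16 * Equiv.swap (E0 0) (E0 1) * Equiv.swap (E0 2) (E0 3) = P23 from by decide,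
    show P16 * Equiv.swap (E0 0) (E0 1) = P22 from by decide,
    show P16 * Equiv.swap (E0 2) (E0 3) = P17 from by decide] at r2
  have r3 := hN E1 P0
  rw [show P0 * Equiv.swap (E1 0) (E1 1) * Equiv.swap (E1 2) (E1 3) = P16 from by decide,
    show P0 * Equiv.swap (E1 0) (E1 1) = P14 from by decide,
    show P0 * Equiv.swap (E1 2) (E1 3) = P5 from by decide] at r3
  have r4 := hN E1 P1
  rw [show P1 * Equiv.swap (E1 0) (E1 1) * Equiv.swap (E1 2) (E1 3) = P22 from by decide,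
    show P1 * Equiv.swap (E1 0) (E1 1) = P20 from by decide,
    show P1 * Equiv.swap (E1 2) (E1 3) = P3 from by decide] at r4
  have r5 := hN E1 P2
  rw [show P2 * Equiv.swap (E1 0) (E1 1) * Equiv.swap (E1 2) (E1 3) = P10 from by decide,
    show P2 * Equiv.swap (E1 0) (E1 1) = P8 from by decide,
    show P2 * Equiv.swap (E1 2) (E1 3) = P4 from by decide] at r5
  have r6 := hN E2 P0
  rw [show P0 * Equiv.swap (E2 0) (E2 1) * Equiv.swap (E2 2) (E2 3) = P23 from by decide,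
    show P0 * Equiv.swap (E2 0) (E2 1) = P21 from by decide,
    show P0 * Equiv.swap (E2 2) (E2 3) = P2 from by decide] at r6
  have r7 := hN E2 P1
  rw [show P1 * Equiv.swap (E2 0) (E2 1) * Equiv.swap (E2 2) (E2 3) = P17 from by decide,
    show P1 * Equiv.swap (E2 0) (E2 1) = P15 from by decide,
    show P1 * Equiv.swap (E2 2) (E2 3) = P4 from by decide] at r7
  have r8 := hN E2 P3
  rw [show P3 * Equiv.swap (E2 0) (E2 1) * Equiv.swap (E2 2) (E2 3) = P11 from by decide,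
    show P3 * Equiv.swap (E2 0) (E2 1) = P9 from by decide,
    show P3 * Equiv.swap (E2 2) (E2 3) = P5 from by decide] at r8
  obtain ⟨m0, q0⟩ := h0 P0 (by decide)
  obtain ⟨m1, q1⟩ := h1 P1 (by decide)
  obtain ⟨m2, q2⟩ := h1 P2 (by decide)
  obtain ⟨m3, q3⟩ := h0 P3 (by decide)
  obtain ⟨m4, q4⟩ := h0 P4 (by decide)
  obtain ⟨m5, q5⟩ := h1 P5 (by decide)
  obtain ⟨m8, q8⟩ := h0 P8 (by decide)
  obtain ⟨m9, q9⟩ := h1 P9 (by decide)
  obtain ⟨m10, q10⟩ := h1 P10 (by decide)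
  obtain ⟨m11, q11⟩ := h0 P11 (by decide)
  obtain ⟨m14, q14⟩ := h1 P14 (by decide)
  obtain ⟨m15, q15⟩ := h0 P15 (by decide)
  obtain ⟨m16, q16⟩ := h0 P16 (by decide)
  obtain ⟨m17, q17⟩ := h1 P17 (by decide)
  obtain ⟨m20, q20⟩ := h0 P20 (by decide)
  obtain ⟨m21, q21⟩ := h1 P21 (by decide)
  obtain ⟨m22, q22⟩ := h1 P22 (by decide)
  obtain ⟨m23, q23⟩ := h0 P23 (by decide)
  omega

theorem no_section (v : (S4 → ℝ) → Matrix (Fin 4) (Fin 4) ℂ)
    (hc : ∀ i j, ContinuousOn (fun y => v y i j) (stdSimplex ℝ S4))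
    (hd : ∀ y ∈ stdSimplex ℝ S4, (v y).det ≠ 0)
    (hs : ∀ I J : Fin 4 → Prop, ∀ y ∈ stdSimplex ℝ S4,
      (∀ π : S4, y π ≠ 0 → ∀ i, I i ↔ J (π i)) → ∀ i j, ¬ (I i ↔ J j) → v y i j = 0) :
    False := by
  classical
  have hdc : ContinuousOn (fun y => (v y).det) (stdSimplex ℝ S4) := by
    simp only [Matrix.det_apply]
    apply continuousOn_finsetSum
    intro σ _
    apply ContinuousOn.const_smul
    apply continuousOn_finsetProd
    intro i _
    exact hc _ _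
  obtain ⟨L, hL, hL'⟩ := exists_log (convex_stdSimplex ℝ S4) ⟨_, single_mem_stdSimplex ℝ (1 : S4)⟩
    (fun y => (v y).det) hdc hd
  have hex : ∀ i j : Fin 4, ∃ l : (S4 → ℝ) → ℂ, ContinuousOn l (face (fun π => π i = j)) ∧
      ∀ y ∈ face (fun π => π i = j), Complex.exp (l y) = v y i j := by
    intro i j
    exact exists_log (face_convex _) ⟨_, vert_mem _ (Equiv.swap i j) (Equiv.swap_apply_left i j)⟩
      (fun y => v y i j) ((hc i j).mono (face_sub _)) (fun y hy => entry_ne v hd hs hy)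
  choose l hl hl' using hex
  choose N hN hN0 hN1 using exists_N v hs L hL' l hl'
  refine comb N ?_ hN0 hN1
  intro e π
  have h := X_block v hc hd hs L hL hL' l hl hl' e π
  rw [hN, hN, hN, hN] at h
  have hp : (Real.pi * I : ℂ) ≠ 0 := by simp [Real.pi_ne_zero]
  rw [← add_mul, ← add_mul] at h
  have h2 := mul_right_cancel₀ hp h
  exact_mod_cast h2

end Pool.Agent.Q161.DK
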