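import Pool.Agent.Q161.DK.Space

set_option autoImplicit false

namespace Pool.Agent.Q161.DK

open Set

lemma exists_perm {ι : Type} [Fintype ι] [DecidableEq ι] (M : Matrix ι ι ℂ) (h : M.det ≠ 0) :
    ∃ π : Equiv.Perm ι, ∀ j, M (π j) j ≠ 0 := by
  rw [Matrix.det_apply'] at h
  obtain ⟨π, -, hπ⟩ := Finset.exists_ne_zero_of_sum_ne_zero h
  refine ⟨π, fun j hj => hπ ?_⟩
  have h0 : ∏ i, M (π i) i = 0 := Finset.prod_eq_zero (f := fun i => M (π i) i) (Finset.mem_univ j) hj
  exact mul_eq_zero_of_right _ h0

open Classical in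
/-- Number of fixed maps. -/
noncomputable def cnt (F : J8 → C(XX, XX)) (x : XX) : ℕ :=
  (Finset.univ.filter (fun k => F k x = x)).card

def cc (m : Fin 5) : ℕ := (Finset.univ.filter (fun k => idc k m)).card

lemma cc_pos : ∀ m, cc m ≠ 0 := by decide
lemma cc_inj : ∀ m m', cc m = cc m' → m = m' := by decide

lemma zmap_eq_iff (k : J8) (z : Z) : zmap k z = z ↔ idc k z.1 := by
  unfold zmap
  split_ifs with h
  · simp [h]
  · simp only [h, iff_false]
    intro he
    apply h
    left
    rw [← he]

lemma cnt_inr (F : J8 → C(XX, XX)) (hF : ∀ k z, F k (Sum.inr z) = Sum.inr (zmap k z)) (z : Z) :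
    cnt F (Sum.inr z) = cc z.1 := by
  unfold cnt cc
  congr 1
  ext k
  simp only [Finset.mem_filter, Finset.mem_univ, true_and, hF]
  rw [← zmap_eq_iff]
  exact Sum.inr_injective.eq_iff

lemma cnt_inl (F : J8 → C(XX, XX)) (G : J8 → K → Z)
    (hF : ∀ k x, F k (Sum.inl x) = Sum.inr (G k x)) (x : K) :
    cnt F (Sum.inl x) = 0 := by
  classical
  unfold cnt
  rw [Finset.card_eq_zero, Finset.filter_eq_empty_iff]
  intro k _
  rw [hF]
  exact Sum.inr_ne_inl

theorem core (h : XX → XX) (w : J8 → J8 → C(XX, ℂ)) (hinj : Function.Injective h)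
    (hdet : ∀ y, (Matrix.of fun i j => w i j y).det ≠ 0)
    (hrel : ∀ i j y, w i j y ≠ 0 → S j (h y) = h (T i y)) : False := by
  classical
  -- counting invariant
  have hcnt : ∀ y, cnt S (h y) = cnt T y := by
    intro y
    obtain ⟨π, hπ⟩ := exists_perm _ (hdet y)
    unfold cnt
    apply Finset.card_bij (fun j _ => π j)
    · intro j hj
      simp only [Finset.mem_filter, Finset.mem_univ, true_and] at hj ⊢
      have := hrel (π j) j y (hπ j)
      rw [hj] at this
      exact (hinj this).symm
    · intro a _ b _ hab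
      exact π.injective hab
    · intro k hk
      simp only [Finset.mem_filter, Finset.mem_univ, true_and] at hk
      refine ⟨π.symm k, ?_, by simp⟩
      simp only [Finset.mem_filter, Finset.mem_univ, true_and]
      have := hrel (π (π.symm k)) (π.symm k) y (hπ _)
      rw [Equiv.apply_symm_apply] at this
      rw [this, hk]
  -- pieces
  have hK : ∀ x : K, ∃ x' : K, h (Sum.inl x) = Sum.inl x' := by
    intro x
    rcases hx : h (Sum.inl x) with x' | z
    · exact ⟨x', rfl⟩
    · exfalso
      have h1 := hcnt (Sum.inl x)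
      rw [hx, cnt_inr S S_inr, cnt_inl T TK T_inl] at h1
      exact cc_pos _ h1
  have hZ : ∀ (m : Fin 5) (t : unitInterval), ∃ t', h (Sum.inr (m, t)) = Sum.inr (m, t') := by
    intro m t
    have h1 := hcnt (Sum.inr (m, t))
    rcases hx : h (Sum.inr (m, t)) with x' | z
    · exfalso
      rw [hx, cnt_inl S SK S_inl, cnt_inr T T_inr] at h1
      exact cc_pos _ h1.symm
    · rw [hx, cnt_inr S S_inr, cnt_inr T T_inr] at h1
      obtain ⟨m', t'⟩ := z
      have h2 : m' = m := cc_inj _ _ h1
      exact ⟨t', by rw [h2]⟩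
  choose hk hhk using hK
  choose g hg using hZ
  have ginj : ∀ m, Function.Injective (g m) := by
    intro m t t' htt
    have h1 : h (Sum.inr (m, t)) = h (Sum.inr (m, t')) := by rw [hg, hg, htt]
    have h2 := hinj h1
    have h3 := Sum.inr_injective h2
    exact (Prod.mk.inj h3).2
  -- relations on the main piece
  have relK : ∀ i j x, w i j (Sum.inl x) ≠ 0 →
      SK j (hk x) = ((TK i x).1, g (TK i x).1 (TK i x).2) := by
    intro i j x hne
    have h1 := hrel i j _ hne
    rw [hhk, S_inl, T_inl] at h1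
    have h2 : h (Sum.inr (TK i x)) = Sum.inr ((TK i x).1, g (TK i x).1 (TK i x).2) := hg _ _
    rw [h2] at h1
    exact Sum.inr_injective h1
  have z01 : ∀ i j x, w (Sum.inl i) (Sum.inr j) (Sum.inl x) = 0 := by
    intro i j x
    by_contra hne
    have h1 := relK _ _ x hne
    simp only [SK, TK] at h1
    exact Fin.succ_ne_zero j (Prod.mk.inj h1).1
  have z10 : ∀ i j x, w (Sum.inr i) (Sum.inl j) (Sum.inl x) = 0 := by
    intro i j x
    by_contra hne
    have h1 := relK _ _ x hne
    simp only [SK, TK] at h1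
    exact Fin.succ_ne_zero i (Prod.mk.inj h1).1.symm
  have z11 : ∀ i j x, i ≠ j → w (Sum.inr i) (Sum.inr j) (Sum.inl x) = 0 := by
    intro i j x hij
    by_contra hne
    have h1 := relK _ _ x hne
    simp only [SK, TK] at h1
    exact hij (Fin.succ_injective _ (Prod.mk.inj h1).1).symm
  have hblock : ∀ x : K, (Matrix.of fun i j => w i j (Sum.inl x)) =
      Matrix.fromBlocks (Matrix.of fun i j : Fin 4 => w (Sum.inl i) (Sum.inl j) (Sum.inl x)) 0 0
        (Matrix.of fun i j : Fin 4 => w (Sum.inr i) (Sum.inr j) (Sum.inl x)) := by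
    intro x
    ext i j
    rcases i with i | i <;> rcases j with j | j
    · simp [Matrix.fromBlocks]
    · simp [Matrix.fromBlocks, z01]
    · simp [Matrix.fromBlocks, z10]
    · simp [Matrix.fromBlocks]
  have hdets : ∀ x : K, (Matrix.of fun i j : Fin 4 => w (Sum.inl i) (Sum.inl j) (Sum.inl x)).det ≠ 0 ∧
      (Matrix.of fun i j : Fin 4 => w (Sum.inr i) (Sum.inr j) (Sum.inl x)).det ≠ 0 := by
    intro x
    have h1 := hdet (Sum.inl x)
    rw [hblock, Matrix.det_fromBlocks_zero₂₁] at h1
    exact ⟨left_ne_zero_of_mul h1, right_ne_zero_of_mul h1⟩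
  have hdiag : ∀ i x, w (Sum.inr i) (Sum.inr i) (Sum.inl x) ≠ 0 := by
    intro i x h0
    apply (hdets x).2
    apply Matrix.det_eq_zero_of_row_eq_zero i
    intro j
    by_cases hij : i = j
    · rw [← hij]; exact h0
    · exact z11 i j x hij
  -- record relation
  have hrec : ∀ i x, sc i (hk x) = g i.succ (sc i x) := by
    intro i x
    have h1 := relK _ _ x (hdiag i x)
    simp only [SK, TK] at h1
    exact (Prod.mk.inj h1).2
  have hmain : ∀ i j x, w (Sum.inl i) (Sum.inl j) (Sum.inl x) ≠ 0 →
      sc j (hk x) = g 0 (tc i x) := by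
    intro i j x hne
    have h1 := relK _ _ x hne
    simp only [SK, TK] at h1
    exact (Prod.mk.inj h1).2
  -- all interval maps agree
  have hgg : ∀ (j : Fin 4) (c : unitInterval), g j.succ c = g 0 c := by
    intro j c
    let x : K := ⟨(vert 1, fun _ => (c : ℝ)), ⟨single_mem_stdSimplex ℝ (1 : S4), fun _ => c.2,
      fun _ _ _ => by simp⟩⟩
    have hsx : ∀ i, sc i x = c := fun i => rfl
    have htx : ∀ i, tc i x = c := by
      intro i
      apply Subtype.ext
      show ∑ π : S4, x.1.1 π * (c : ℝ) = c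
      rw [← Finset.sum_mul, x.2.1.2, one_mul]
    have hex : ∃ i, w (Sum.inl i) (Sum.inl j) (Sum.inl x) ≠ 0 := by
      by_contra hcon
      push Not at hcon
      apply (hdets x).1
      exact Matrix.det_eq_zero_of_column_eq_zero j hcon
    obtain ⟨i, hi⟩ := hex
    have h1 := hmain i j x hi
    rw [hrec, hsx, htx] at h1
    exact h1
  have hfin : ∀ i j x, w (Sum.inl i) (Sum.inl j) (Sum.inl x) ≠ 0 → sc j x = tc i x := by
    intro i j x hne
    have h1 := hmain i j x hne
    rw [hrec, hgg] at h1
    exact ginj 0 h1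
  -- the section over the simplex
  let pt : stdSimplex ℝ S4 → K := fun y => ⟨(y.1, fun _ => 0), ⟨y.2, fun _ => by simp,
    fun _ _ _ => by simp⟩⟩
  have hpt : Continuous pt := by
    apply Continuous.subtype_mk
    fun_prop
  let v : (S4 → ℝ) → Matrix (Fin 4) (Fin 4) ℂ := fun y =>
    if hy : y ∈ stdSimplex ℝ S4 then
      Matrix.of fun i j => w (Sum.inl i) (Sum.inl j) (Sum.inl (pt ⟨y, hy⟩)) else 1
  have hv : ∀ (y : S4 → ℝ) (hy : y ∈ stdSimplex ℝ S4) (i j : Fin 4),
      v y i j = w (Sum.inl i) (Sum.inl j) (Sum.inl (pt ⟨y, hy⟩)) := by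
    intro y hy i j
    simp [v, hy]
  refine no_section v ?_ ?_ ?_
  · intro i j
    rw [continuousOn_iff_continuous_domRestrict]
    have h1 : (stdSimplex ℝ S4).domRestrict (fun y => v y i j) =
        fun y => w (Sum.inl i) (Sum.inl j) (Sum.inl (pt y)) := by
      funext y
      exact hv y.1 y.2 i j
    rw [h1]
    exact (w (Sum.inl i) (Sum.inl j)).continuous.comp (continuous_inl.comp hpt)
  · intro y hy
    have h1 : v y = Matrix.of fun i j => w (Sum.inl i) (Sum.inl j) (Sum.inl (pt ⟨y, hy⟩)) := by
      simp [v, hy]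
    rw [h1]
    exact (hdets _).1
  · intro I J y hy hIJ i j hij
    rw [hv y hy]
    let q : unitInterval → K := fun t => ⟨(y, fun k => if J k then (t : ℝ) else 0), ⟨hy, by
        intro k
        by_cases hk : J k
        · simp only [hk, if_true]; exact t.2
        · simp [hk], by
        intro π π' i
        by_cases h1 : y π = 0
        · simp [h1]
        by_cases h2 : y π' = 0
        · simp [h2]
        have h3 : J (π i) ↔ J (π' i) := (hIJ π h1 i).symm.trans (hIJ π' h2 i)
        simp [h3]⟩⟩
    have hq : Continuous q := by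
      apply Continuous.subtype_mk
      refine continuous_const.prodMk (continuous_pi fun k => ?_)
      by_cases hk : J k
      · simp only [hk, if_true]; fun_prop
      · simp only [hk, if_false]; fun_prop
    have hsq : ∀ t k, ((sc k (q t) : unitInterval) : ℝ) = if J k then (t : ℝ) else 0 :=
      fun t k => rfl
    have htq : ∀ t k, ((tc k (q t) : unitInterval) : ℝ) = if I k then (t : ℝ) else 0 := by
      intro t k
      show ∑ π : S4, y π * (if J (π k) then (t : ℝ) else 0) = if I k then (t : ℝ) else 0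
      have h1 : ∀ π : S4, y π * (if J (π k) then (t : ℝ) else 0) =
          y π * (if I k then (t : ℝ) else 0) := by
        intro π
        by_cases h1 : y π = 0
        · simp [h1]
        · simp only [hIJ π h1 k]
      simp only [h1]
      rw [← Finset.sum_mul, hy.2, one_mul]
    have hzero : ∀ t : unitInterval, 0 < (t : ℝ) →
        w (Sum.inl i) (Sum.inl j) (Sum.inl (q t)) = 0 := by
      intro t ht
      by_contra hne
      have h1 := congrArg (Subtype.val) (hfin i j (q t) hne)
      rw [hsq, htq] at h1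
      by_cases hI : I i
      · have hJ : ¬ J j := fun hJ => hij ⟨fun _ => hJ, fun _ => hI⟩
        simp only [hI, hJ, if_true, if_false] at h1
        linarith
      · have hJ : J j := by
          by_contra hJ
          exact hij ⟨fun h => absurd h hI, fun h => absurd h hJ⟩
        simp only [hI, hJ, if_true, if_false] at h1
        linarith
    have hf : Continuous (fun t : ℝ =>
        w (Sum.inl i) (Sum.inl j) (Sum.inl (q (projIcc 0 1 zero_le_one t)))) :=
      (w (Sum.inl i) (Sum.inl j)).continuous.comp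
        (continuous_inl.comp (hq.comp continuous_projIcc))
    have hEq : EqOn (fun t : ℝ =>
        w (Sum.inl i) (Sum.inl j) (Sum.inl (q (projIcc 0 1 zero_le_one t)))) (fun _ => 0)
        (Ioi (0 : ℝ)) := by
      intro t ht
      apply hzero
      rw [coe_projIcc]
      have : (0 : ℝ) < t := ht
      simp [this]
    have h0 := hEq.closure hf continuous_const
    rw [closure_Ioi] at h0
    have h1 := h0 (Set.mem_Ici.mpr (le_refl (0 : ℝ)))
    beta_reduce at h1
    have h2 : q (projIcc 0 1 zero_le_one 0) = pt ⟨y, hy⟩ := by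
      apply Subtype.ext
      simp only [q, pt]
      congr 1
      funext k
      simp
    rw [h2] at h1
    exact h1

/-- The two systems are not unitarily equivalent. -/
theorem not_ue : ¬ ∃ (ρ : C(XX, ℂ) ≃⋆ₐ[ℂ] C(XX, ℂ))
    (U : (Fin 8 → C(XX, ℂ)) →ₗ[ℂ] (Fin 8 → C(XX, ℂ))), Function.Surjective U ∧
    (∀ ξ η : Fin 8 → C(XX, ℂ), ∑ i, star (U ξ i) * U η i = ρ (∑ i, star (ξ i) * η i)) ∧
    (∀ (a : C(XX, ℂ)) (ξ : Fin 8 → C(XX, ℂ)),
      U (fun i => a.comp (S (e8.symm i)) * ξ i) =
        fun i => (ρ a).comp (T (e8.symm i)) * U ξ i) := by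
  rintro ⟨ρ, U, hU, hin, hleft⟩
  obtain ⟨h, u, hinj, hdet, hrel⟩ := extract (fun i => S (e8.symm i)) (fun i => T (e8.symm i))
    ρ U hU hin hleft
  refine core h (fun i j => u (e8 i) (e8 j)) hinj ?_ ?_
  · intro y
    have h1 := hdet y
    have h2 := Matrix.det_submatrix_equiv_self e8 (Matrix.of fun i j => u i j y)
    rw [← h2] at h1
    exact h1
  · intro i j y hne
    have h1 := hrel (e8 i) (e8 j) y hne
    simpa using h1

end Pool.Agent.Q161.DK
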