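import Mathlib

set_option autoImplicit false

namespace Pool.Agent.Q161.DK

open Complex Set

/-- Extraction of point data from a unitary equivalence of C*-correspondences. -/
theorem extract {X Y : Type} [TopologicalSpace X] [CompactSpace X] [T2Space X]
    [TopologicalSpace Y] [CompactSpace Y] [T2Space Y] {n : ℕ}
    (σ : Fin n → C(X, X)) (τ : Fin n → C(Y, Y))
    (ρ : C(X, ℂ) ≃⋆ₐ[ℂ] C(Y, ℂ)) (U : (Fin n → C(X, ℂ)) →ₗ[ℂ] (Fin n → C(Y, ℂ)))
    (hU : Function.Surjective U)
    (hin : ∀ ξ η : Fin n → C(X, ℂ), ∑ i, star (U ξ i) * U η i = ρ (∑ i, star (ξ i) * η i))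
    (hleft : ∀ (a : C(X, ℂ)) (ξ : Fin n → C(X, ℂ)),
      U (fun i => a.comp (σ i) * ξ i) = fun i => (ρ a).comp (τ i) * U ξ i) :
    ∃ (h : Y → X) (u : Fin n → Fin n → C(Y, ℂ)), Function.Injective h ∧
      (∀ y, (Matrix.of fun i j => u i j y).det ≠ 0) ∧
      ∀ i j y, u i j y ≠ 0 → σ j (h y) = h (τ i y) := by
  classical
  -- the point map
  let h : Y → X := fun y => (WeakDual.CharacterSpace.homeoEval X ℂ).symm
    (WeakDual.CharacterSpace.compContinuousMap (ρ : C(X, ℂ) →⋆ₐ[ℂ] C(Y, ℂ))
      (WeakDual.CharacterSpace.homeoEval Y ℂ y))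
  have hh : ∀ (a : C(X, ℂ)) (y : Y), ρ a y = a (h y) := by
    intro a y
    have h1 : WeakDual.CharacterSpace.homeoEval X ℂ (h y) =
        WeakDual.CharacterSpace.compContinuousMap (ρ : C(X, ℂ) →⋆ₐ[ℂ] C(Y, ℂ))
          (WeakDual.CharacterSpace.homeoEval Y ℂ y) := by
      simp [h]
    have h2 := congrArg (fun φ : WeakDual.characterSpace ℂ C(X, ℂ) => φ a) h1
    exact h2.symm
  have hsep : ∀ x x' : X, (∀ a : C(X, ℂ), a x = a x') → x = x' := by
    intro x x' hx
    apply (WeakDual.CharacterSpace.homeoEval X ℂ).injective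
    apply Subtype.ext
    apply DFunLike.ext
    intro a
    exact hx a
  have hinj : Function.Injective h := by
    intro y y' hyy
    apply (WeakDual.CharacterSpace.homeoEval Y ℂ).injective
    apply Subtype.ext
    apply DFunLike.ext
    intro b
    obtain ⟨a, rfl⟩ := ρ.surjective b
    show ρ a y = ρ a y'
    rw [hh, hh, hyy]
  -- right linearity
  have hright : ∀ (ξ : Fin n → C(X, ℂ)) (b : C(X, ℂ)),
      U (fun i => ξ i * b) = fun i => U ξ i * ρ b := by
    intro ξ b
    obtain ⟨η, hη⟩ := hU (fun i => U (fun i => ξ i * b) i - U ξ i * ρ b)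
    have h1 : ∑ i, star (U (fun i => ξ i * b) i) * U η i =
        ρ (star b) * ρ (∑ i, star (ξ i) * η i) := by
      rw [hin, ← map_mul]
      congr 1
      rw [Finset.mul_sum]
      apply Finset.sum_congr rfl
      intro i _
      rw [star_mul]; ring
    have h2 : ∑ i, star (U ξ i * ρ b) * U η i =
        ρ (star b) * ρ (∑ i, star (ξ i) * η i) := by
      rw [← hin, Finset.mul_sum]
      apply Finset.sum_congr rfl
      intro i _
      rw [star_mul, map_star]; ring
    have h3 : ∑ i, star (U η i) * U η i = 0 := by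
      have : ∀ i, star (U η i) * U η i =
          star (U (fun i => ξ i * b) i) * U η i - star (U ξ i * ρ b) * U η i := by
        intro i
        rw [← sub_mul, ← star_sub]
        congr 2
        exact congrFun hη i
      simp only [this]
      rw [Finset.sum_sub_distrib, h1, h2, sub_self]
    have h4 : ∀ i, U η i = 0 := by
      intro i
      ext y
      have h5 := congrArg (fun f : C(Y, ℂ) => f y) h3
      simp only [ContinuousMap.coe_sum, Finset.sum_apply, ContinuousMap.mul_apply,
        ContinuousMap.star_apply, ContinuousMap.zero_apply] at h5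
      have h6 : ∀ i, star (U η i y) * U η i y = ((‖U η i y‖ ^ 2 : ℝ) : ℂ) := by
        intro i
        rw [mul_comm]
        simpa [Complex.normSq_eq_norm_sq] using Complex.mul_conj (U η i y)
      simp only [h6] at h5
      rw [← Complex.ofReal_sum, Complex.ofReal_eq_zero] at h5
      have h7 := (Finset.sum_eq_zero_iff_of_nonneg (fun i _ => sq_nonneg ‖U η i y‖)).mp h5 i
        (Finset.mem_univ i)
      have h8 : ‖U η i y‖ = 0 := by
        exact pow_eq_zero_iff (two_ne_zero) |>.mp h7
      simpa using h8
    funext i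
    have h5 := congrFun hη i
    rw [h4 i] at h5
    exact (sub_eq_zero.mp h5.symm)
  refine ⟨h, fun i j => U (Pi.single j 1) i, hinj, ?_, ?_⟩
  · intro y hdet
    have hmul : (Matrix.of fun i j => (U (Pi.single j 1) i) y).conjTranspose *
        (Matrix.of fun i j => (U (Pi.single j 1) i) y) = 1 := by
      ext j k
      rw [Matrix.mul_apply]
      simp only [Matrix.conjTranspose_apply, Matrix.of_apply]
      have h1 := congrArg (fun f : C(Y, ℂ) => f y) (hin (Pi.single j 1) (Pi.single k 1))
      simp only [ContinuousMap.coe_sum, Finset.sum_apply, ContinuousMap.mul_apply,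
        ContinuousMap.star_apply] at h1
      rw [h1]
      have h2 : ∑ i, star ((Pi.single j 1 : Fin n → C(X, ℂ)) i) * (Pi.single k 1 : Fin n → C(X, ℂ)) i
          = if j = k then 1 else 0 := by
        rw [Finset.sum_eq_single j]
        · by_cases hjk : j = k
          · subst hjk; simp
          · simp [hjk]
        · intro i _ hi
          simp [hi]
        · simp
      rw [h2]
      by_cases hjk : j = k
      · subst hjk; simp
      · simp [hjk]
    have h3 := congrArg Matrix.det hmul
    rw [Matrix.det_mul, hdet] at h3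
    simp at h3
  · intro i j y hne
    apply hsep
    intro a
    have h1 := hleft a (Pi.single j 1)
    have h2 : (fun i => a.comp (σ i) * (Pi.single j 1 : Fin n → C(X, ℂ)) i) =
        fun i => (Pi.single j 1 : Fin n → C(X, ℂ)) i * a.comp (σ j) := by
      funext i
      by_cases hij : i = j
      · subst hij; simp
      · simp [hij]
    rw [h2, hright] at h1
    have h3 := congrArg (fun f : C(Y, ℂ) => f y) (congrFun h1 i)
    simp only [ContinuousMap.mul_apply, ContinuousMap.comp_apply] at h3
    rw [hh, hh, mul_comm] at h3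
    simpa using mul_right_cancel₀ hne h3

end Pool.Agent.Q161.DK
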