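import Mathlib

set_option autoImplicit false

namespace Pool.Agent.Q161.DK

open Complex Set

/-- Continuous logarithms on convex sets. -/
lemma exists_log {E : Type*} [NormedAddCommGroup E] [NormedSpace ℝ E] {C : Set E}
    (hC : Convex ℝ C) (hne : C.Nonempty) (f : E → ℂ) (hf : ContinuousOn f C)
    (h0 : ∀ x ∈ C, f x ≠ 0) :
    ∃ L : E → ℂ, ContinuousOn L C ∧ ∀ x ∈ C, Complex.exp (L x) = f x := by
  classical
  obtain ⟨a, ha⟩ := hne
  have hcs : ContractibleSpace C := hC.contractibleSpace ⟨a, ha⟩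
  have hlp : LocallyPathConnectedSpace C := hC.locallyPathConnectedSpace
  obtain ⟨F, ⟨-, hF⟩, -⟩ := isCoveringMapOn_exp.existsUnique_continuousMap_lifts
    (⟨C.domRestrict f, continuousOn_iff_continuous_domRestrict.mp hf⟩ : C(C, ℂ))
    (e₀ := Complex.log (f a)) (a₀ := ⟨a, ha⟩) (exp_log (h0 a ha))
    (fun x ↦ by simpa using h0 x.1 x.2)
  refine ⟨fun x => if hx : x ∈ C then F ⟨x, hx⟩ else 0, ?_, ?_⟩
  · rw [continuousOn_iff_continuous_domRestrict]
    convert F.continuous using 1
    ext z
    simp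
  · intro x hx
    simp only [hx, dif_pos]
    exact congrFun hF ⟨x, hx⟩

/-- A continuous function on a preconnected set whose exponential is constant is constant. -/
lemma const_of_exp {E : Type*} [TopologicalSpace E] {G : Set E} (hG : IsPreconnected G)
    (g : E → ℂ) (hg : ContinuousOn g G) (c : ℂ) (h : ∀ x ∈ G, Complex.exp (g x) = c) :
    ∀ x ∈ G, ∀ y ∈ G, g x = g y := by
  intro x hx y hy
  let k : E → ℝ := fun z => ((g z - g x) / (2 * Real.pi * I)).re
  have hk : ContinuousOn k G := by
    apply Complex.continuous_re.comp_continuousOn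
    exact (hg.sub continuousOn_const).div_const _
  have hval : ∀ z ∈ G, ∃ n : ℤ, g z - g x = n * (2 * Real.pi * I) := by
    intro z hz
    have : Complex.exp (g z - g x) = 1 := by
      rw [Complex.exp_sub, h z hz, h x hx, div_self]
      rw [← h x hx]; exact Complex.exp_ne_zero _
    rw [Complex.exp_eq_one_iff] at this
    exact this
  have h2 : (2 * Real.pi * I : ℂ) ≠ 0 := by simp [Real.pi_ne_zero]
  have hkint : ∀ z ∈ G, ∃ n : ℤ, k z = n ∧ g z - g x = n * (2 * Real.pi * I) := by
    intro z hz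
    obtain ⟨n, hn⟩ := hval z hz
    refine ⟨n, ?_, hn⟩
    simp only [k]
    rw [hn, mul_div_assoc, div_self h2]
    simp
  have hord := (hG.image k hk).ordConnected
  have hkx : k x = 0 := by simp [k]
  obtain ⟨n, hn, hn2⟩ := hkint y hy
  have hn0 : n = 0 := by
    by_contra hne
    rcases lt_or_gt_of_ne hne with hlt | hgt
    · have h1 : (-1/2 : ℝ) ∈ Icc (k y) (k x) := by
        rw [hkx, hn]
        have : (n : ℝ) ≤ -1 := by exact_mod_cast (by omega : n ≤ -1)
        constructor <;> linarith
      obtain ⟨z, hz, hzk⟩ := hord.out (mem_image_of_mem k hy) (mem_image_of_mem k hx) h1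
      obtain ⟨m, hm, -⟩ := hkint z hz
      rw [hm] at hzk
      have : (2 * m : ℝ) = -1 := by rw [hzk]; ring
      have : (2 * m : ℤ) = -1 := by exact_mod_cast this
      omega
    · have h1 : (1/2 : ℝ) ∈ Icc (k x) (k y) := by
        rw [hkx, hn]
        have : (1 : ℝ) ≤ n := by exact_mod_cast (by omega : 1 ≤ n)
        constructor <;> linarith
      obtain ⟨z, hz, hzk⟩ := hord.out (mem_image_of_mem k hx) (mem_image_of_mem k hy) h1
      obtain ⟨m, hm, -⟩ := hkint z hz
      rw [hm] at hzk
      have : (2 * m : ℝ) = 1 := by rw [hzk]; ring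
      have : (2 * m : ℤ) = 1 := by exact_mod_cast this
      omega
  rw [hn0] at hn2
  simp at hn2
  exact (sub_eq_zero.mp hn2).symm

end Pool.Agent.Q161.DK
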