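import Pool.Agent.Q161.DK.Topo

set_option autoImplicit false

namespace Pool.Agent.Q161.DK

open Complex Set

section main

variable (v : (S4 → ℝ) → Matrix (Fin 4) (Fin 4) ℂ)
  (hc : ∀ i j, ContinuousOn (fun y => v y i j) (stdSimplex ℝ S4))
  (hd : ∀ y ∈ stdSimplex ℝ S4, (v y).det ≠ 0)
  (hs : ∀ I J : Fin 4 → Prop, ∀ y ∈ stdSimplex ℝ S4,
    (∀ π : S4, y π ≠ 0 → ∀ i, I i ↔ J (π i)) → ∀ i j, ¬ (I i ↔ J j) → v y i j = 0)
  (L : (S4 → ℝ) → ℂ) (hL : ContinuousOn L (stdSimplex ℝ S4))
  (hL' : ∀ y ∈ stdSimplex ℝ S4, Complex.exp (L y) = (v y).det)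
  (l : Fin 4 → Fin 4 → (S4 → ℝ) → ℂ)
  (hl : ∀ i j, ContinuousOn (l i j) (face (fun π => π i = j)))
  (hl' : ∀ i j, ∀ y ∈ face (fun π => π i = j), Complex.exp (l i j y) = v y i j)

/-- The defect of the logarithms at a vertex. -/
noncomputable def X (L : (S4 → ℝ) → ℂ) (l : Fin 4 → Fin 4 → (S4 → ℝ) → ℂ) (π : S4) : ℂ :=
  L (vert π) - ∑ i, l i (π i) (vert π)

include hs hL' hl' in
lemma exp_X (π : S4) : Complex.exp (X L l π) = ((Equiv.Perm.sign π : ℤ) : ℂ) := by
  unfold X
  rw [Complex.exp_sub, Complex.exp_sum, hL' (vert π) (single_mem_stdSimplex ℝ π), det_vert v hs]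
  have h1 : ∏ i, Complex.exp (l i (π i) (vert π)) = ∏ i, v (vert π) i (π i) := by
    apply Finset.prod_congr rfl
    intro i _
    exact hl' i (π i) _ (vert_mem _ π rfl)
  rw [h1, mul_div_assoc, div_self, mul_one]
  rw [← h1]
  exact Finset.prod_ne_zero_iff.mpr (fun i _ => Complex.exp_ne_zero _)

include hs hL' hl' in
lemma exists_N (π : S4) : ∃ N : ℤ, X L l π = N * (Real.pi * I) ∧
    (Equiv.Perm.sign π = 1 → ∃ m, N = 2 * m) ∧ (Equiv.Perm.sign π = -1 → ∃ m, N = 2 * m + 1) := by
  have h := exp_X v hs L hL' l hl' π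
  rcases Int.units_eq_one_or (Equiv.Perm.sign π) with h1 | h1
  · rw [h1] at h
    simp only [Units.val_one, Int.cast_one] at h
    rw [Complex.exp_eq_one_iff] at h
    obtain ⟨n, hn⟩ := h
    refine ⟨2 * n, ?_, fun _ => ⟨n, rfl⟩, ?_⟩
    · rw [hn]; push_cast; ring
    · intro h2; rw [h1] at h2; exact absurd h2 (by decide)
  · rw [h1] at h
    simp only [Units.val_neg, Units.val_one, Int.cast_neg, Int.cast_one] at h
    have h2 : Complex.exp (X L l π - Real.pi * I) = 1 := by
      rw [Complex.exp_sub, h, Complex.exp_pi_mul_I]; norm_num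
    rw [Complex.exp_eq_one_iff] at h2
    obtain ⟨n, hn⟩ := h2
    refine ⟨2 * n + 1, ?_, ?_, fun _ => ⟨n, rfl⟩⟩
    · have : X L l π = n * (2 * Real.pi * I) + Real.pi * I := by
        rw [← hn]; ring
      rw [this]; push_cast; ring
    · intro h3; rw [h1] at h3; exact absurd h3 (by decide)

include hc hd hs hL hL' hl hl' in
lemma X_block (e π : S4) :
    X L l π + X L l (π * Equiv.swap (e 0) (e 1) * Equiv.swap (e 2) (e 3)) =
      X L l (π * Equiv.swap (e 0) (e 1)) + X L l (π * Equiv.swap (e 2) (e 3)) := by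
  classical
  have n01 : e 0 ≠ e 1 := fun h => absurd (e.injective h) (by decide)
  have n02 : e 0 ≠ e 2 := fun h => absurd (e.injective h) (by decide)
  have n03 : e 0 ≠ e 3 := fun h => absurd (e.injective h) (by decide)
  have n12 : e 1 ≠ e 2 := fun h => absurd (e.injective h) (by decide)
  have n13 : e 1 ≠ e 3 := fun h => absurd (e.injective h) (by decide)
  have n23 : e 2 ≠ e 3 := fun h => absurd (e.injective h) (by decide)
  set a := e 0 with ha
  set b := e 1 with hb
  set c := e 2 with hcc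
  set d := e 3 with hdd
  set π1 := π * Equiv.swap a b with hπ1
  set π2 := π * Equiv.swap c d with hπ2
  set π3 := π * Equiv.swap a b * Equiv.swap c d with hπ3
  -- values
  have a1 : π1 a = π b := by simp [hπ1]
  have b1 : π1 b = π a := by simp [hπ1]
  have c1 : π1 c = π c := by simp [hπ1, Equiv.swap_apply_of_ne_of_ne n02.symm n12.symm]
  have d1 : π1 d = π d := by simp [hπ1, Equiv.swap_apply_of_ne_of_ne n03.symm n13.symm]
  have a2 : π2 a = π a := by simp [hπ2, Equiv.swap_apply_of_ne_of_ne n02 n03]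
  have b2 : π2 b = π b := by simp [hπ2, Equiv.swap_apply_of_ne_of_ne n12 n13]
  have c2 : π2 c = π d := by simp [hπ2]
  have d2 : π2 d = π c := by simp [hπ2]
  have a3 : π3 a = π b := by simp [hπ3, Equiv.swap_apply_of_ne_of_ne n02 n03]
  have b3 : π3 b = π a := by simp [hπ3, Equiv.swap_apply_of_ne_of_ne n12 n13]
  have c3 : π3 c = π d := by
    simp [hπ3, Equiv.swap_apply_of_ne_of_ne n03.symm n13.symm]
  have d3 : π3 d = π c := by
    simp [hπ3, Equiv.swap_apply_of_ne_of_ne n02.symm n12.symm]
  have hsum : ∀ (f : Fin 4 → ℂ), ∑ i, f i = f a + f b + f c + f d := by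
    intro f
    rw [← Equiv.sum_comp e f, Fin.sum_univ_four]
  have hall : ∀ i : Fin 4, i = a ∨ i = b ∨ i = c ∨ i = d := by
    intro i
    obtain ⟨k, rfl⟩ := e.surjective i
    fin_cases k <;> simp [ha, hb, hcc, hdd]
  -- membership of the four vertices in the block face
  have hmem : ∀ π' : S4, ((π' a = π a ∧ π' b = π b) ∨ (π' a = π b ∧ π' b = π a)) →
      blk e π π' := by
    intro π' h i
    constructor
    · rintro (hi | hi)
      · rw [hi]; rcases h with h | h
        · left; exact h.1
        · right; exact h.1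
      · rw [hi]; rcases h with h | h
        · right; exact h.2
        · left; exact h.2
    · rintro (hi | hi)
      · rcases h with h | h
        · left; apply π'.injective; rw [hi]; exact h.1.symm
        · right; apply π'.injective; rw [hi]; exact h.2.symm
      · rcases h with h | h
        · right; apply π'.injective; rw [hi]; exact h.2.symm
        · left; apply π'.injective; rw [hi]; exact h.1.symm
  have hmem' : ∀ π' : S4, ((π' c = π c ∧ π' d = π d) ∨ (π' c = π d ∧ π' d = π c)) →
      blk e π π' := by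
    intro π' h
    apply hmem
    have hne : ∀ i, (i = a ∨ i = b) → π' i = π a ∨ π' i = π b := by
      intro i hi
      obtain ⟨k, hk⟩ := π.surjective (π' i)
      have hic : i ≠ c := by rcases hi with hi | hi <;> rw [hi] <;> assumption
      have hid : i ≠ d := by rcases hi with hi | hi <;> rw [hi] <;> assumption
      have h5 : π' i ≠ π' c := fun h => hic (π'.injective h)
      have h6 : π' i ≠ π' d := fun h => hid (π'.injective h)
      rcases hall k with hk' | hk' | hk' | hk'
      · left; rw [← hk, hk']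
      · right; rw [← hk, hk']
      · exfalso
        rw [← hk, hk'] at h5 h6
        rcases h with h | h
        · exact h5 h.1.symm
        · exact h6 h.2.symm
      · exfalso
        rw [← hk, hk'] at h5 h6
        rcases h with h | h
        · exact h6 h.2.symm
        · exact h5 h.1.symm
    have hab' : π' a ≠ π' b := fun h => n01 (π'.injective h)
    rcases hne a (Or.inl rfl) with h1 | h1 <;> rcases hne b (Or.inr rfl) with h2 | h2
    · exact absurd (h1.trans h2.symm) hab'
    · left; exact ⟨h1, h2⟩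
    · right; exact ⟨h1, h2⟩
    · exact absurd (h1.trans h2.symm) hab'
  -- minors and their logs
  set B := face (blk e π) with hB
  have hBconv : Convex ℝ B := face_convex _
  have v0 : vert π ∈ B := vert_mem _ _ (hmem π (Or.inl ⟨rfl, rfl⟩))
  have v1 : vert π1 ∈ B := vert_mem _ _ (hmem π1 (Or.inr ⟨a1, b1⟩))
  have v2 : vert π2 ∈ B := vert_mem _ _ (hmem π2 (Or.inl ⟨a2, b2⟩))
  have v3 : vert π3 ∈ B := vert_mem _ _ (hmem π3 (Or.inr ⟨a3, b3⟩))
  have hdet : ∀ y ∈ B, (v y).det = ((Equiv.Perm.sign π : ℤ) : ℂ) *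
      (minor v a b (π a) (π b) y * minor v c d (π c) (π d) y) := fun y hy => det_blk v hs e π hy
  have hm1 : ∀ y ∈ B, minor v a b (π a) (π b) y ≠ 0 := by
    intro y hy h0
    apply hd y hy.1
    rw [hdet y hy, h0]; ring
  have hm2 : ∀ y ∈ B, minor v c d (π c) (π d) y ≠ 0 := by
    intro y hy h0
    apply hd y hy.1
    rw [hdet y hy, h0]; ring
  obtain ⟨M1, hM1c, hM1⟩ := exists_log hBconv ⟨_, v0⟩ (minor v a b (π a) (π b))
    ((minor_cont v hc a b (π a) (π b)).mono (face_sub _)) hm1
  obtain ⟨M2, hM2c, hM2⟩ := exists_log hBconv ⟨_, v0⟩ (minor v c d (π c) (π d))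
    ((minor_cont v hc c d (π c) (π d)).mono (face_sub _)) hm2
  -- first constancy
  have K := const_of_exp hBconv.isPreconnected (fun y => L y - M1 y - M2 y)
    (((hL.mono (face_sub _)).sub hM1c).sub hM2c) ((Equiv.Perm.sign π : ℤ) : ℂ) (by
      intro y hy
      rw [Complex.exp_sub, Complex.exp_sub, hL' y hy.1, hM1 y hy, hM2 y hy, hdet y hy]
      have h1 := hm1 y hy
      have h2 := hm2 y hy
      field_simp)
  have K1 := K _ v1 _ v0
  have K2 := K _ v2 _ v0
  have K3 := K _ v3 _ v0
  beta_reduce at K1 K2 K3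
  -- generic second constancy
  have P : ∀ (i k s t : Fin 4) (M : (S4 → ℝ) → ℂ) (z : ℂ) (G : S4 → Prop),
      ContinuousOn M B → (∀ π', G π' → blk e π π') → (∀ π', G π' → π' i = s) →
      (∀ π', G π' → π' k = t) →
      (∀ y ∈ face G, Complex.exp (M y) = z * (v y i s * v y k t)) →
      ∀ x ∈ face G, ∀ y ∈ face G,
        M x - l i s x - l k t x = M y - l i s y - l k t y := by
    intro i k s t M z G hM hG1 hG2 hG3 hexp x hx y hy
    refine const_of_exp (face_convex G).isPreconnected (fun y => M y - l i s y - l k t y)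
      (((hM.mono (face_mono hG1)).sub ((hl i s).mono (face_mono hG2))).sub
        ((hl k t).mono (face_mono hG3))) z ?_ x hx y hy
    intro y hy
    have f1 : y ∈ face (fun π => π i = s) := face_mono hG2 hy
    have f2 : y ∈ face (fun π => π k = t) := face_mono hG3 hy
    rw [Complex.exp_sub, Complex.exp_sub, hexp y hy, hl' i s y f1, hl' k t y f2]
    have g1 := entry_ne v hd hs f1
    have g2 := entry_ne v hd hs f2
    field_simp
  have pab : π a ≠ π b := fun h => n01 (π.injective h)
  have pcd : π c ≠ π d := fun h => n23 (π.injective h)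
  -- P at π, π2
  have P1 := P a b (π a) (π b) M1 1 (fun π' => π' a = π a ∧ π' b = π b) hM1c
    (fun π' h => hmem π' (Or.inl h)) (fun π' h => h.1) (fun π' h => h.2)
    (by
      intro y hy
      have f1 : y ∈ face (fun π' => π' a = π a) := face_mono (fun π' h => h.1) hy
      rw [hM1 y (face_mono (fun π' h => hmem π' (Or.inl h)) hy)]
      unfold minor
      rw [row_zero v hs f1 pab.symm]; ring)
    _ (vert_mem _ π ⟨rfl, rfl⟩) _ (vert_mem _ π2 ⟨a2, b2⟩)
  have P2 := P a b (π b) (π a) M1 (-1) (fun π' => π' a = π b ∧ π' b = π a) hM1c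
    (fun π' h => hmem π' (Or.inr h)) (fun π' h => h.1) (fun π' h => h.2)
    (by
      intro y hy
      have f1 : y ∈ face (fun π' => π' a = π b) := face_mono (fun π' h => h.1) hy
      rw [hM1 y (face_mono (fun π' h => hmem π' (Or.inr h)) hy)]
      unfold minor
      rw [row_zero v hs f1 pab]; ring)
    _ (vert_mem _ π1 ⟨a1, b1⟩) _ (vert_mem _ π3 ⟨a3, b3⟩)
  have P3 := P c d (π c) (π d) M2 1 (fun π' => π' c = π c ∧ π' d = π d) hM2c
    (fun π' h => hmem' π' (Or.inl h)) (fun π' h => h.1) (fun π' h => h.2)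
    (by
      intro y hy
      have f1 : y ∈ face (fun π' => π' c = π c) := face_mono (fun π' h => h.1) hy
      rw [hM2 y (face_mono (fun π' h => hmem' π' (Or.inl h)) hy)]
      unfold minor
      rw [row_zero v hs f1 pcd.symm]; ring)
    _ (vert_mem _ π ⟨rfl, rfl⟩) _ (vert_mem _ π1 ⟨c1, d1⟩)
  have P4 := P c d (π d) (π c) M2 (-1) (fun π' => π' c = π d ∧ π' d = π c) hM2c
    (fun π' h => hmem' π' (Or.inr h)) (fun π' h => h.1) (fun π' h => h.2)
    (by
      intro y hy
      have f1 : y ∈ face (fun π' => π' c = π d) := face_mono (fun π' h => h.1) hy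
      rw [hM2 y (face_mono (fun π' h => hmem' π' (Or.inr h)) hy)]
      unfold minor
      rw [row_zero v hs f1 pcd]; ring)
    _ (vert_mem _ π2 ⟨c2, d2⟩) _ (vert_mem _ π3 ⟨c3, d3⟩)
  have X0 : X L l π = L (vert π) - (l a (π a) (vert π) + l b (π b) (vert π) +
      l c (π c) (vert π) + l d (π d) (vert π)) := by
    unfold X; rw [hsum]
  have X1 : X L l π1 = L (vert π1) - (l a (π b) (vert π1) + l b (π a) (vert π1) +
      l c (π c) (vert π1) + l d (π d) (vert π1)) := by
    unfold X; rw [hsum, a1, b1, c1, d1]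
  have X2 : X L l π2 = L (vert π2) - (l a (π a) (vert π2) + l b (π b) (vert π2) +
      l c (π d) (vert π2) + l d (π c) (vert π2)) := by
    unfold X; rw [hsum, a2, b2, c2, d2]
  have X3 : X L l π3 = L (vert π3) - (l a (π b) (vert π3) + l b (π a) (vert π3) +
      l c (π d) (vert π3) + l d (π c) (vert π3)) := by
    unfold X; rw [hsum, a3, b3, c3, d3]
  rw [X0, X1, X2, X3]
  linear_combination K3 - K1 - K2 + P1 - P2 + P3 - P4

end main

end Pool.Agent.Q161.DK
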