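import Pool.Agent.Q161.DK.Comb
import Pool.Agent.Q161.DK.Extract

set_option autoImplicit false

namespace Pool.Agent.Q161.DK

open Set

/-- The main piece of the space. -/
def Kset : Set ((S4 → ℝ) × (Fin 4 → ℝ)) :=
  {p | p.1 ∈ stdSimplex ℝ S4 ∧ (∀ i, p.2 i ∈ Icc (0 : ℝ) 1) ∧
    ∀ (π π' : S4) (i : Fin 4), p.1 π * p.1 π' * (p.2 (π i) - p.2 (π' i)) = 0}

lemma isCompact_Kset : IsCompact Kset := by
  have h1 : IsCompact ((stdSimplex ℝ S4) ×ˢ (Set.univ.pi fun _ : Fin 4 => Icc (0 : ℝ) 1)) :=
    (isCompact_stdSimplex ℝ S4).prod (isCompact_univ_pi fun _ => isCompact_Icc)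
  apply h1.of_isClosed_subset
  · have h2 : Kset = ((fun p : (S4 → ℝ) × (Fin 4 → ℝ) => p.1) ⁻¹' stdSimplex ℝ S4) ∩
        ((⋂ i, {p : (S4 → ℝ) × (Fin 4 → ℝ) | p.2 i ∈ Icc (0 : ℝ) 1}) ∩
        (⋂ π : S4, ⋂ π' : S4, ⋂ i : Fin 4,
          {p : (S4 → ℝ) × (Fin 4 → ℝ) | p.1 π * p.1 π' * (p.2 (π i) - p.2 (π' i)) = 0})) := by
      ext p
      simp only [Kset, mem_ofPred_eq, mem_inter_iff, mem_iInter, mem_preimage]
    rw [h2]
    refine IsClosed.inter ((isCompact_stdSimplex ℝ S4).isClosed.preimage continuous_fst)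
      (IsClosed.inter ?_ ?_)
    · refine isClosed_iInter fun i => ?_
      exact isClosed_Icc.preimage (by fun_prop)
    · refine isClosed_iInter fun π => isClosed_iInter fun π' => isClosed_iInter fun i => ?_
      exact isClosed_eq (by fun_prop) continuous_const
  · intro p hp
    exact ⟨hp.1, fun i _ => hp.2.1 i⟩

abbrev K : Type := Kset
abbrev Z : Type := Fin 5 × unitInterval
abbrev XX : Type := K ⊕ Z

instance : CompactSpace K := isCompact_iff_compactSpace.mp isCompact_Kset

example : CompactSpace XX := inferInstance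
example : T2Space XX := inferInstance
example : TopologicalSpace.MetrizableSpace XX := inferInstance

abbrev J8 : Type := Fin 4 ⊕ Fin 4

/-- The coordinate `s j`. -/
def sc (j : Fin 4) (x : K) : unitInterval := ⟨x.1.2 j, x.2.2.1 j⟩

/-- The convex combination of the coordinates. -/
noncomputable def tc (i : Fin 4) (x : K) : unitInterval :=
  ⟨∑ π : S4, x.1.1 π * x.1.2 (π i), by
    constructor
    · exact Finset.sum_nonneg fun π _ => mul_nonneg (x.2.1.1 π) (x.2.2.1 _).1
    · calc ∑ π : S4, x.1.1 π * x.1.2 (π i) ≤ ∑ π : S4, x.1.1 π * 1 :=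
            Finset.sum_le_sum fun π _ => mul_le_mul_of_nonneg_left (x.2.2.1 _).2 (x.2.1.1 π)
        _ = 1 := by simp only [mul_one]; exact x.2.1.2⟩

lemma sc_cont (j : Fin 4) : Continuous (sc j) := by
  unfold sc
  apply Continuous.subtype_mk
  fun_prop

lemma tc_cont (i : Fin 4) : Continuous (tc i) := by
  unfold tc
  apply Continuous.subtype_mk
  fun_prop

/-- Rank of an index. -/
def rk : J8 → ℕ := Sum.elim (fun j => j) (fun j => j + 4)

/-- The condition that the map `k` is the identity on the piece `m`. -/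
def idc (k : J8) (m : Fin 5) : Prop := m = 0 ∨ rk k < m

instance (k : J8) (m : Fin 5) : Decidable (idc k m) := by unfold idc; infer_instance

/-- The maps on the intervals. -/
def zmap (k : J8) (z : Z) : Z := if idc k z.1 then z else (0, 0)

lemma zmap_cont (k : J8) : Continuous (zmap k) := by
  unfold zmap
  apply Continuous.if
  · intro a ha
    have hcl : IsClopen {z : Z | idc k z.1} :=
      (isClopen_discrete {m : Fin 5 | idc k m}).preimage continuous_fst
    rw [hcl.frontier_eq] at ha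
    exact absurd ha (Set.notMem_empty a)
  · exact continuous_id
  · exact continuous_const

/-- The first system. -/
def SK : J8 → K → Z
  | Sum.inl j => fun x => (0, sc j x)
  | Sum.inr j => fun x => (j.succ, sc j x)

/-- The second system. -/
noncomputable def TK : J8 → K → Z
  | Sum.inl j => fun x => (0, tc j x)
  | Sum.inr j => fun x => (j.succ, sc j x)

lemma SK_cont (k : J8) : Continuous (SK k) := by
  rcases k with j | j
  · exact continuous_const.prodMk (sc_cont j)
  · exact continuous_const.prodMk (sc_cont j)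

lemma TK_cont (k : J8) : Continuous (TK k) := by
  rcases k with j | j
  · exact continuous_const.prodMk (tc_cont j)
  · exact continuous_const.prodMk (sc_cont j)

def S (k : J8) : C(XX, XX) :=
  ⟨Sum.elim (fun x => Sum.inr (SK k x)) (fun z => Sum.inr (zmap k z)),
    Continuous.sumElim (continuous_inr.comp (SK_cont k)) (continuous_inr.comp (zmap_cont k))⟩

noncomputable def T (k : J8) : C(XX, XX) :=
  ⟨Sum.elim (fun x => Sum.inr (TK k x)) (fun z => Sum.inr (zmap k z)),
    Continuous.sumElim (continuous_inr.comp (TK_cont k)) (continuous_inr.comp (zmap_cont k))⟩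

@[simp] lemma S_inl (k : J8) (x : K) : S k (Sum.inl x) = Sum.inr (SK k x) := rfl
@[simp] lemma S_inr (k : J8) (z : Z) : S k (Sum.inr z) = Sum.inr (zmap k z) := rfl
@[simp] lemma T_inl (k : J8) (x : K) : T k (Sum.inl x) = Sum.inr (TK k x) := rfl
@[simp] lemma T_inr (k : J8) (z : Z) : T k (Sum.inr z) = Sum.inr (zmap k z) := rfl

/-! ### Piecewise conjugacy -/

lemma tc_eq (x : K) (π : S4) (hπ : 0 < x.1.1 π) (i : Fin 4) : tc i x = sc (π i) x := by
  apply Subtype.ext
  show ∑ π' : S4, x.1.1 π' * x.1.2 (π' i) = x.1.2 (π i)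
  have h1 : ∀ π' : S4, x.1.1 π' * x.1.2 (π' i) = x.1.1 π' * x.1.2 (π i) := by
    intro π'
    have h2 := x.2.2.2 π π' i
    rw [mul_assoc] at h2
    have h3 := (mul_eq_zero.mp h2).resolve_left hπ.ne'
    linarith [mul_sub (x.1.1 π') (x.1.2 (π i)) (x.1.2 (π' i))]
  simp only [h1]
  rw [← Finset.sum_mul, x.2.1.2, one_mul]

def e8 : J8 ≃ Fin 8 := finSumFinEquiv

def hat (π : S4) : Equiv.Perm (Fin 8) := e8.permCongr (Equiv.sumCongr π (Equiv.refl _))

lemma pw :
    ∃ (γ : XX ≃ₜ XX) (V : Equiv.Perm (Fin 8) → Set XX), (∀ ϖ, IsOpen (V ϖ)) ∧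
      (⋃ ϖ, V ϖ) = univ ∧
      ∀ ϖ, ∀ x ∈ V ϖ, ∀ i, (T (e8.symm i)) (γ x) = γ ((S (e8.symm (ϖ i))) x) := by
  classical
  refine ⟨Homeomorph.refl _, fun ϖ => interior {x | ∀ i, T (e8.symm i) x = S (e8.symm (ϖ i)) x},
    fun _ => isOpen_interior, ?_, ?_⟩
  · rw [eq_univ_iff_forall]
    intro x
    rw [mem_iUnion]
    rcases x with x | z
    · have hex : ∃ π : S4, 0 < x.1.1 π := by
        by_contra hcon
        push Not at hcon
        have : ∑ π : S4, x.1.1 π ≤ 0 := Finset.sum_nonpos fun π _ => hcon π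
        rw [x.2.1.2] at this
        linarith
      obtain ⟨π, hπ⟩ := hex
      refine ⟨hat π, ?_⟩
      rw [mem_interior]
      refine ⟨Sum.inl '' {y : K | 0 < y.1.1 π}, ?_, ?_, ⟨x, hπ, rfl⟩⟩
      · rintro _ ⟨y, hy, rfl⟩
        intro i
        obtain ⟨k, rfl⟩ := e8.surjective i
        have hk : e8.symm (hat π (e8 k)) = Sum.map π id k := by
          simp [hat, Equiv.permCongr_apply]
        rw [hk, Equiv.symm_apply_apply]
        rcases k with j | j
        · simp only [T_inl, S_inl, Sum.map_inl, TK, SK]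
          rw [tc_eq y π hy j]
        · simp [TK, SK]
      · have hc : Continuous (fun y : K => y.1.1 π) := by fun_prop
        exact isOpenMap_inl _ (isOpen_lt continuous_const hc)
    · refine ⟨1, ?_⟩
      rw [mem_interior]
      refine ⟨range Sum.inr, ?_, isOpen_range_inr, ⟨z, rfl⟩⟩
      rintro _ ⟨z, rfl⟩
      intro i
      simp
  · intro ϖ x hx i
    exact interior_subset hx i

end Pool.Agent.Q161.DK
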