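import Pool.Agent.Q161.DK.Log

set_option autoImplicit false

namespace Pool.Agent.Q161.DK

open Complex Set

abbrev S4 := Equiv.Perm (Fin 4)

/-- The face of the simplex on the vertex set `S4` spanned by the permutations with `P`. -/
def face (P : S4 → Prop) : Set (S4 → ℝ) := {y | y ∈ stdSimplex ℝ S4 ∧ ∀ π, y π ≠ 0 → P π}

lemma face_mono {P Q : S4 → Prop} (h : ∀ π, P π → Q π) : face P ⊆ face Q :=
  fun _ hy => ⟨hy.1, fun π hπ => h π (hy.2 π hπ)⟩

lemma face_sub (P : S4 → Prop) : face P ⊆ stdSimplex ℝ S4 := fun _ hy => hy.1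

lemma face_convex (P : S4 → Prop) : Convex ℝ (face P) := by
  intro x hx z hz a b ha hb hab
  refine ⟨convex_stdSimplex ℝ S4 hx.1 hz.1 ha hb hab, ?_⟩
  intro π hπ
  by_contra hP
  have h1 : x π = 0 := by
    by_contra h; exact hP (hx.2 π h)
  have h2 : z π = 0 := by
    by_contra h; exact hP (hz.2 π h)
  apply hπ
  simp [h1, h2]

def vert (π : S4) : S4 → ℝ := Pi.single π 1

lemma vert_mem (P : S4 → Prop) (π : S4) (h : P π) : vert π ∈ face P := by
  refine ⟨single_mem_stdSimplex ℝ π, ?_⟩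
  intro π' hπ'
  by_cases he : π' = π
  · rw [he]; exact h
  · exact absurd (by simp [vert, he]) hπ'

lemma det_block (w : Matrix (Fin 4) (Fin 4) ℂ)
    (h02 : w 0 2 = 0) (h03 : w 0 3 = 0) (h12 : w 1 2 = 0) (h13 : w 1 3 = 0)
    (h20 : w 2 0 = 0) (h21 : w 2 1 = 0) (h30 : w 3 0 = 0) (h31 : w 3 1 = 0) :
    w.det = (w 0 0 * w 1 1 - w 0 1 * w 1 0) * (w 2 2 * w 3 3 - w 2 3 * w 3 2) := by
  rw [Matrix.det_succ_row_zero]
  simp only [Fin.sum_univ_four, Matrix.det_fin_three, Matrix.submatrix_apply]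
  have e1 : (Fin.succ 0 : Fin 4) = 1 := rfl
  have e2 : (Fin.succ 1 : Fin 4) = 2 := rfl
  have e3 : (Fin.succ 2 : Fin 4) = 3 := rfl
  have s00 : (Fin.succAbove (0 : Fin 4) (0 : Fin 3)) = 1 := rfl
  have s01 : (Fin.succAbove (0 : Fin 4) (1 : Fin 3)) = 2 := rfl
  have s02 : (Fin.succAbove (0 : Fin 4) (2 : Fin 3)) = 3 := rfl
  have s10 : (Fin.succAbove (1 : Fin 4) (0 : Fin 3)) = 0 := rfl
  have s11 : (Fin.succAbove (1 : Fin 4) (1 : Fin 3)) = 2 := rfl
  have s12 : (Fin.succAbove (1 : Fin 4) (2 : Fin 3)) = 3 := rfl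
  simp only [e1, e2, e3, s00, s01, s02, s10, s11, s12, h02, h03, h12, h13, h20, h21, h30, h31]
  simp
  ring

section main

variable (v : (S4 → ℝ) → Matrix (Fin 4) (Fin 4) ℂ)
  (hc : ∀ i j, ContinuousOn (fun y => v y i j) (stdSimplex ℝ S4))
  (hd : ∀ y ∈ stdSimplex ℝ S4, (v y).det ≠ 0)
  (hs : ∀ I J : Fin 4 → Prop, ∀ y ∈ stdSimplex ℝ S4,
    (∀ π : S4, y π ≠ 0 → ∀ i, I i ↔ J (π i)) → ∀ i j, ¬ (I i ↔ J j) → v y i j = 0)

include hs in
lemma row_zero {i j : Fin 4} {y : S4 → ℝ} (hy : y ∈ face (fun π => π i = j)) {j' : Fin 4}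
    (h : j' ≠ j) : v y i j' = 0 := by
  refine hs (fun k => k = i) (fun k => k = j) y hy.1 ?_ i j' ?_
  · intro π hπ k
    have := hy.2 π hπ
    constructor
    · rintro rfl; exact this
    · intro hk; exact π.injective (hk.trans this.symm)
  · simpa using h

include hs in
lemma col_zero {i j : Fin 4} {y : S4 → ℝ} (hy : y ∈ face (fun π => π i = j)) {i' : Fin 4}
    (h : i' ≠ i) : v y i' j = 0 := by
  refine hs (fun k => k = i) (fun k => k = j) y hy.1 ?_ i' j ?_
  · intro π hπ k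
    have := hy.2 π hπ
    constructor
    · rintro rfl; exact this
    · intro hk; exact π.injective (hk.trans this.symm)
  · simpa using h

include hs hd in
lemma entry_ne {i j : Fin 4} {y : S4 → ℝ} (hy : y ∈ face (fun π => π i = j)) :
    v y i j ≠ 0 := by
  intro h0
  apply hd y hy.1
  apply Matrix.det_eq_zero_of_row_eq_zero i
  intro j'
  by_cases hj : j' = j
  · rw [hj]; exact h0
  · exact row_zero v hs hy hj

include hs in
lemma det_vert (π : S4) :
    (v (vert π)).det = (Equiv.Perm.sign π : ℤ) * ∏ i, v (vert π) i (π i) := by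
  rw [← Matrix.det_transpose, Matrix.det_apply']
  rw [Finset.sum_eq_single π]
  · simp [Matrix.transpose_apply]
  · intro σ _ hσ
    have : ∃ i, σ i ≠ π i := by
      by_contra hcon
      push Not at hcon
      exact hσ (Equiv.ext hcon)
    obtain ⟨i, hi⟩ := this
    have h0 : v (vert π) i (σ i) = 0 :=
      row_zero v hs (vert_mem (fun π' => π' i = π i) π rfl) hi
    rw [Finset.prod_eq_zero (Finset.mem_univ i) (by simpa [Matrix.transpose_apply] using h0)]
    simp
  · intro h; exact absurd (Finset.mem_univ _) h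

/-- The 2×2 minor. -/
def minor (a b j k : Fin 4) (y : S4 → ℝ) : ℂ := v y a j * v y b k - v y a k * v y b j

include hc in
lemma minor_cont (a b j k : Fin 4) : ContinuousOn (minor v a b j k) (stdSimplex ℝ S4) :=
  ((hc a j).mul (hc b k)).sub ((hc a k).mul (hc b j))

def blk (e π : S4) : S4 → Prop :=
  fun π' => ∀ i, (i = e 0 ∨ i = e 1) ↔ (π' i = π (e 0) ∨ π' i = π (e 1))

include hs in
lemma det_blk (e π : S4) {y : S4 → ℝ} (hy : y ∈ face (blk e π)) :
    (v y).det = (Equiv.Perm.sign π : ℤ) *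
      (minor v (e 0) (e 1) (π (e 0)) (π (e 1)) y * minor v (e 2) (e 3) (π (e 2)) (π (e 3)) y) := by
  have hz : ∀ i j, ¬ ((i = e 0 ∨ i = e 1) ↔ (j = π (e 0) ∨ j = π (e 1))) → v y i j = 0 :=
    hs (fun k => k = e 0 ∨ k = e 1) (fun k => k = π (e 0) ∨ k = π (e 1)) y hy.1
      (fun π' hπ' => hy.2 π' hπ')
  have h1 : (((v y).submatrix id π).submatrix e e).det = (Equiv.Perm.sign π : ℤ) * (v y).det := by
    rw [Matrix.det_submatrix_equiv_self, Matrix.det_permute']
  have h2 := det_block (((v y).submatrix id π).submatrix e e)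
    (by simp only [Matrix.submatrix_apply, id]; apply hz; simp)
    (by simp only [Matrix.submatrix_apply, id]; apply hz; simp)
    (by simp only [Matrix.submatrix_apply, id]; apply hz; simp)
    (by simp only [Matrix.submatrix_apply, id]; apply hz; simp)
    (by simp only [Matrix.submatrix_apply, id]; apply hz; simp)
    (by simp only [Matrix.submatrix_apply, id]; apply hz; simp)
    (by simp only [Matrix.submatrix_apply, id]; apply hz; simp)
    (by simp only [Matrix.submatrix_apply, id]; apply hz; simp)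
  rw [h1] at h2
  simp only [Matrix.submatrix_apply, id] at h2
  have hsq : ((Equiv.Perm.sign π : ℤ) : ℂ) * ((Equiv.Perm.sign π : ℤ) : ℂ) = 1 := by
    rcases Int.units_eq_one_or (Equiv.Perm.sign π) with h | h <;> rw [h] <;> simp
  have h3 : (v y).det = ((Equiv.Perm.sign π : ℤ) : ℂ) * (((Equiv.Perm.sign π : ℤ) : ℂ) * (v y).det) := by
    rw [← mul_assoc, hsq, one_mul]
  rw [h3, h2]
  unfold minor
  ring

end main

end Pool.Agent.Q161.DK
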